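import Mathlib
import Pool.Agent.N735.CL.LdpU

/-!
# Large deviations of the number of primes in the translates of almost all patterns

For a pattern `h = (h_1, ..., h_K)` of length `K ~ κ log² X` with entries in `{1, ..., X}` let `N(m)` be
the number of the primes among `m + h_1, ..., m + h_K`; its expected value is about `κ log X`. The
question is whether `N(m) > 0` always for the pattern of consecutive integers and `κ = 1`. We prove,
unconditionally, the large deviation principle that Cramér's random model predicts, for almost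
all patterns, uniformly in the level `r ≥ 0`: with `I(κ, r) = κ - r + r log (r / κ)`, the number of the
`m ≤ X` with `N(m) ≥ r log X` (if `r ≥ κ`) or `N(m) ≤ r log X` (if `r ≤ κ`) is
`X ^ (1 - I(κ, r) + o(1))` as long as `I(κ, r) < 1`, and there is no such `m` if `I(κ, r) > 1`. For
`r = 0` the rate is `κ`: the number of the `m ≤ X` without primes among the `m + h_i` is
`X ^ (1 - κ + o(1))` if `κ < 1`, and for `κ > 1` there is a prime among the `m + h_i` for all `m ≤ X`.

The prime number theorem with an error term, the Hardy-Littlewood asymptotics for the number of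
the prime pairs with almost all differences and the upper bound sieve for prime pairs are from the
starting files.
-/

set_option autoImplicit false

namespace Pool.Agent.Results.MP_45ff98_nt.LargeDeviationsForPatterns

open Finset Filter Topology

/-- the patterns of length `K` with entries in `{1, ..., X}` -/
def patterns (X K : ℕ) : Finset (Fin K → ℕ) := Fintype.piFinset fun _ => Icc 1 X

open Classical in
/-- the proportion of the patterns of length `K` with entries in `{1, ..., X}` which have the
property `B` -/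
noncomputable def proportion (X K : ℕ) (B : (Fin K → ℕ) → Prop) : ℝ :=
  (((patterns X K).filter B).card : ℝ) / (patterns X K).card

/-- the number of the indices `i` such that `m + h_i` is a prime -/
def count {K : ℕ} (h : Fin K → ℕ) (m : ℕ) : ℕ := (univ.filter fun i : Fin K => (m + h i).Prime).card

/-- the rate function -/
noncomputable def I (κ r : ℝ) : ℝ := κ - r + r * Real.log (r / κ)

/-- `N` is `X ^ (1 - t)` up to the factor `X ^ δ`, as an upper bound for all `t` and as a lower bound
for `t ≤ 1 - δ` -/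
def IsPow (X : ℕ) (δ t : ℝ) (N : ℕ) : Prop :=
  (N : ℝ) ≤ (X : ℝ) ^ (1 - t + δ) ∧ (t ≤ 1 - δ → (X : ℝ) ^ (1 - t - δ) ≤ N)

lemma prop_eq (X K : ℕ) (B : (Fin K → ℕ) → Prop) : proportion X K B = Pool.Agent.N735.CL.PK X K B := by
  classical
  rw [Pool.Agent.N735.CL.PK_eq]
  unfold proportion patterns
  have h := Pool.Agent.N735.CL.card_Om X K
  unfold Pool.Agent.N735.CL.Om at h ⊢
  rw [h]
  push_cast
  rfl

lemma rpow_eq {X : ℕ} (hX : 1 ≤ X) (t : ℝ) : (X : ℝ) ^ t = Real.exp (t * Real.log X) := by
  rw [Real.rpow_def_of_pos (by exact_mod_cast hX), mul_comm]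

open Classical in
theorem result : ∀ κ : ℝ, 0 < κ → ∀ K : ℕ → ℕ,
    Tendsto (fun X => (K X : ℝ) / Real.log X ^ 2) atTop (𝓝 κ) →
      ∀ δ θ : ℝ, 0 < δ → 0 < θ → ∀ᶠ X : ℕ in atTop,
        proportion X (K X) (fun h => ¬ ∀ r : ℝ, 0 ≤ r →
          (κ ≤ r → IsPow X δ (I κ r) ((Icc 1 X).filter fun m => r * Real.log X ≤ count h m).card) ∧
          (r ≤ κ → IsPow X δ (I κ r) ((Icc 1 X).filter fun m => count h m ≤ r * Real.log X).card))
            ≤ θ := by
  intro κ hκ K hK δ θ hδ hθ
  have hδ1 : 0 < min δ 1 := lt_min hδ one_pos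
  filter_upwards [Pool.Agent.N735.CL.ldp_G κ K hK hκ (min δ 1) (θ / 2) hδ1 (min_le_right _ _) (by positivity),
    Pool.Agent.N735.CL.ldp_L κ K hK hκ (min δ 1) (θ / 2) hδ1 (by positivity), eventually_ge_atTop 1] with X h1 h2 hX
  have hL : 0 ≤ Real.log (X : ℝ) := Real.log_natCast_nonneg X
  rw [prop_eq]
  refine le_trans (Pool.Agent.N735.CL.PK_mono (C := fun h => (¬ ∀ r : ℝ, κ ≤ r → Pool.Agent.N735.CL.okG κ (min δ 1) r X h) ∨
    (¬ ∀ r : ℝ, 0 ≤ r → r ≤ κ → Pool.Agent.N735.CL.okL κ (min δ 1) r X h)) ?_) ((Pool.Agent.N735.CL.PK_or _ _).trans (by linarith))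
  intro h _ hh
  by_contra hc
  push Not at hc
  apply hh
  have hpow : ∀ (r : ℝ) (N : ℕ), (N : ℝ) ≤ Real.exp ((1 - Pool.Agent.N735.CL.rate κ r + min δ 1) * Real.log X) →
      (Pool.Agent.N735.CL.rate κ r ≤ 1 - min δ 1 → Real.exp ((1 - Pool.Agent.N735.CL.rate κ r - min δ 1) * Real.log X) ≤ N) →
      IsPow X δ (I κ r) N := by
    intro r N g1 g2
    have e : Pool.Agent.N735.CL.rate κ r = I κ r := rfl
    rw [e] at g1 g2
    constructor
    · rw [rpow_eq hX]
      refine g1.trans (Real.exp_le_exp.2 (mul_le_mul_of_nonneg_right ?_ hL))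
      linarith [min_le_left δ 1]
    · intro h3
      rw [rpow_eq hX]
      refine le_trans (Real.exp_le_exp.2 (mul_le_mul_of_nonneg_right ?_ hL)) (g2 ?_)
      · linarith [min_le_left δ 1]
      · linarith [min_le_left δ 1]
  intro r hr0
  constructor
  · intro hr
    have g := hc.1 r hr
    exact hpow r _ g.1 g.2
  · intro hr
    have g := hc.2 r hr0 hr
    exact hpow r _ g.1 g.2

end Pool.Agent.Results.MP_45ff98_nt.LargeDeviationsForPatterns
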