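import Pool.Agent.H357R2.SI.TwoSided
import Pool.Agent.H622R3.SP.Mult

/-!
# Schinzel's intervals and all other lengths, at the multiples of almost all real numbers

For `0 < θ < 1` and all real numbers `x` in `[Y, 2 Y]` outside a set of measure `Y ^ (1 - κ)`, a positive
proportion of the multiples `z = k x`, `k ≤ Y ^ θ`, have the following property: the number of primes in
`(z, z + H)` has the right order of magnitude for ALL `H` between `K log z` and `z / 2` simultaneously,
with the lower constant `1 - δ`. In particular the interval `(z, z + (log z) ^ 2)` contains between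
`(1 - δ) log z` and `λ log z` primes.

The two theorems from which this is deduced are in the starting library: the positive proportion of
integers with the property (`Pool.Agent.H357R2.SI`), and the theorem on multiples of almost all real
numbers and arbitrary sets of integers of positive lower density (`Pool.Agent.H622R3.SP.mult`, not
handed in before).
-/

set_option autoImplicit false

open Filter Topology MeasureTheory

namespace Pool.Agent.Results.MP_45ff98_nt.MultiplesAllScales

/-- The number of primes in the open interval `(z, z + H)`. -/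
noncomputable def primesIn (z H : ℝ) : ℕ := {p : ℕ | p.Prime ∧ z < p ∧ (p : ℝ) < z + H}.ncard

/-- All intervals `(z, z + H)` with `K log z ≤ H ≤ z / 2` contain the right number of primes, up to
the constant factors `1 - δ` and `lam`. -/
def Regular (δ K lam z : ℝ) : Prop := ∀ H : ℝ, K * Real.log z ≤ H → H ≤ z / 2 →
  (1 - δ) * H / Real.log z ≤ primesIn z H ∧ (primesIn z H : ℝ) ≤ lam * H / Real.log z

open Pool.Agent.H357R2.SI in
/-- the property at the integer `m` -/
def FS (δ K lam : ℝ) (m : ℕ) : Prop := ∀ H : ℝ, K * Real.log m ≤ H → H ≤ m →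
  (1 - δ) * H / Real.log m ≤ piS m H ∧ (piS m H : ℝ) ≤ lam * H / Real.log m

open Pool.Agent.H357R2.SI

lemma fin_primes (z H : ℝ) : {p : ℕ | p.Prime ∧ z < p ∧ (p : ℝ) < z + H}.Finite := by
  refine (Set.finite_Iio ⌈z + H⌉₊).subset fun p hp => ?_
  exact Nat.lt_ceil.2 hp.2.2

lemma piS_le {m : ℕ} {z H : ℝ} (h1 : (m : ℝ) < z) (h2 : z < m + 1) (hH : 0 ≤ H) :
    piS m H ≤ primesIn z H := by
  unfold piS primesIn
  rw [← Set.ncard_coe_finset]
  apply Set.ncard_le_ncard _ (fin_primes z H)
  intro p hp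
  simp only [Finset.coe_filter, Finset.mem_Ioc, Set.mem_ofPred_eq, Nat.floor_natCast] at hp ⊢
  obtain ⟨⟨h3, h4⟩, h5⟩ := hp
  refine ⟨h5, ?_, ?_⟩
  · have h6 : ((m + 1 : ℕ) : ℝ) ≤ p := by exact_mod_cast h3
    push_cast at h6
    linarith
  · have h6 : (p : ℝ) ≤ m + H := (Nat.le_floor_iff (by positivity)).1 h4
    linarith

lemma le_piS {m : ℕ} {z H : ℝ} (h1 : (m : ℝ) < z) (h2 : z < m + 1) (hH : 0 ≤ H) :
    primesIn z H ≤ piS m (H + 1) := by
  unfold piS primesIn
  rw [← Set.ncard_coe_finset]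
  apply Set.ncard_le_ncard _ (Finset.finite_toSet _)
  intro p hp
  simp only [Finset.coe_filter, Finset.mem_Ioc, Set.mem_ofPred_eq, Nat.floor_natCast] at hp ⊢
  obtain ⟨h5, h3, h4⟩ := hp
  refine ⟨⟨?_, ?_⟩, h5⟩
  · have h6 : (m : ℝ) < p := h1.trans h3
    exact_mod_cast h6
  · apply Nat.le_floor
    linarith

/-- from integers to real numbers -/
lemma regular_of {δ K lam : ℝ} (hδ1 : δ < 1) (hK : 1 ≤ K) (hlam : 0 < lam) {m : ℕ}
    (hm : 3 ≤ m) (h : FS δ K lam m) {z : ℝ} (h1 : (m : ℝ) < z) (h2 : z < m + 1) :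
    Regular δ K (4 * lam) z := by
  intro H hH1 hH2
  have hm3 : (3 : ℝ) ≤ m := by exact_mod_cast hm
  have hlm : 1 < Real.log m := by
    rw [Real.lt_log_iff_exp_lt (by linarith)]
    have := Real.exp_one_lt_d9
    linarith
  have hlz : Real.log m ≤ Real.log z := Real.log_le_log (by linarith) h1.le
  have hlz0 : 0 < Real.log z := by linarith
  have hz2 : Real.log z ≤ 2 * Real.log m := by
    have h3 : Real.log z ≤ Real.log ((m : ℝ) ^ 2) := by
      apply Real.log_le_log (by linarith)
      nlinarith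
    rw [Real.log_pow] at h3
    exact_mod_cast h3
  have hH : 1 ≤ H := by nlinarith
  have hK1 : K * Real.log m ≤ H := le_trans (by nlinarith) hH1
  constructor
  · have h3 := (h H hK1 (by linarith)).1
    have h4 : (piS m H : ℝ) ≤ primesIn z H := by exact_mod_cast piS_le h1 h2 (by linarith)
    refine le_trans ?_ (h3.trans h4)
    apply div_le_div_of_nonneg_left _ (by linarith) hlz
    exact mul_nonneg (by linarith) (by linarith)
  · have h3 := (h (H + 1) (by linarith) (by linarith)).2
    have h4 : (primesIn z H : ℝ) ≤ piS m (H + 1) := by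
      exact_mod_cast le_piS h1 h2 (by linarith)
    refine h4.trans (h3.trans ?_)
    rw [div_le_div_iff₀ (by linarith) hlz0]
    calc lam * (H + 1) * Real.log z ≤ lam * (2 * H) * (2 * Real.log m) := by
          apply mul_le_mul _ hz2 hlz0.le (by positivity)
          apply mul_le_mul_of_nonneg_left _ hlam.le
          linarith
      _ = 4 * lam * H * Real.log m := by ring

open Classical in
/-- the positive proportion of integers (starting library) -/
lemma integers (δ : ℝ) (hδ0 : 0 < δ) (hδ1 : δ < 1) : ∃ K lam c : ℝ, 1 ≤ K ∧ 0 < lam ∧ 0 < c ∧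
    ∀ᶠ N : ℕ in atTop, c * N ≤ (((Finset.range N).filter (fun n : ℕ => FS δ K lam n)).card : ℝ) := by
  obtain ⟨c, hc0, hlow⟩ := lower_all_scales δ hδ0 hδ1
  set lam : ℝ := max 2 (4 / c) with hlam
  have hlam1 : 1 < lam := lt_of_lt_of_le (by norm_num) (le_max_left _ _)
  have hlamc : 1 / lam ≤ c / 4 := by
    have h1 : 4 / c ≤ lam := le_max_right _ _
    have h2 : 0 < 4 / c := by positivity
    calc 1 / lam ≤ 1 / (4 / c) := one_div_le_one_div_of_le h2 h1
      _ = c / 4 := by field_simp
  set η : ℝ := min (c / 64) (1 / 10) with hη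
  have hη0 : 0 < η := lt_min (by positivity) (by norm_num)
  have hηc : η ≤ c / 64 := min_le_left _ _
  have hK : 1 ≤ 4 / δ := by
    rw [le_div_iff₀ hδ0]
    linarith
  refine ⟨4 / δ, lam, c / 2, hK, by linarith, by positivity, ?_⟩
  filter_upwards [hlow, badc_bounds lam hlam1 η hη0 (min_le_right _ _)] with N h1 h2
  obtain ⟨-, h2⟩ := h2
  set B := (Finset.range N).filter
    (fun n : ℕ => ¬ ∀ H : ℝ, 0 < H → H ≤ n → (piS n H : ℝ) ≤ lam * H / Real.log n) with hB
  have hBc : badc lam N = B.card := rfl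
  have hsub : lowc δ (4 / δ) N ⊆ (Finset.range N).filter (fun n : ℕ => FS δ (4 / δ) lam n) ∪ B := by
    intro n hn
    unfold lowc at hn
    rw [Finset.mem_filter] at hn
    rw [Finset.mem_union, Finset.mem_filter, hB, Finset.mem_filter]
    by_cases hgood : ∀ H : ℝ, 0 < H → H ≤ n → (piS n H : ℝ) ≤ lam * H / Real.log n
    · left
      refine ⟨hn.1, fun H hH1 hH2 => ⟨hn.2 H hH1 hH2, ?_⟩⟩
      rcases lt_or_ge 0 H with hH0 | hH0
      · exact hgood H hH0 hH2
      · have h3 : 0 ≤ Real.log (n : ℝ) := Real.log_natCast_nonneg n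
        have h4 : 0 ≤ 4 / δ * Real.log (n : ℝ) := by positivity
        have h5 : H = 0 := le_antisymm hH0 (h4.trans hH1)
        subst h5
        unfold piS
        simp
    · exact Or.inr ⟨hn.1, hgood⟩
  have h3 := (Finset.card_le_card hsub).trans (Finset.card_union_le _ _)
  have h4 : ((lowc δ (4 / δ) N).card : ℝ) ≤
      (((Finset.range N).filter (fun n : ℕ => FS δ (4 / δ) lam n)).card : ℝ) + B.card := by
    exact_mod_cast h3
  rw [hBc] at h2
  have hN0 : (0 : ℝ) ≤ N := Nat.cast_nonneg N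
  have h5 : (1 / lam + 8 * η) * N ≤ (c / 2) * N := by
    apply mul_le_mul_of_nonneg_right _ hN0
    linarith
  linarith

/-- For every `0 < δ < 1` there are `K, lam > 0` such that for every `0 < θ < 1` there are
`c, κ > 0` such that for all large `Y` and all real `x` in `[Y, 2 Y]` outside a set of measure at most
`Y ^ (1 - κ)`, at least `c Y ^ θ` of the natural numbers `k ≤ Y ^ θ` have the following property for
`z = k x`: for all real `H` with `K log z ≤ H ≤ z / 2` simultaneously the number of primes in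
`(z, z + H)` is between `(1 - δ) H / log z` and `lam H / log z`; and the number of primes in
`(z, z + (log z) ^ 2)` is between `(1 - δ) log z` and `lam log z`. -/
theorem result : ∀ δ : ℝ, 0 < δ → δ < 1 → ∃ K lam : ℝ, 0 < K ∧ 0 < lam ∧
    ∀ θ : ℝ, 0 < θ → θ < 1 → ∃ c κ : ℝ, 0 < c ∧ 0 < κ ∧ ∃ Y₀ : ℝ, ∀ Y : ℝ, Y₀ ≤ Y →
      ∃ E : Set ℝ, MeasurableSet E ∧ volume E ≤ ENNReal.ofReal (Y ^ (1 - κ)) ∧
        ∀ x : ℝ, Y ≤ x → x ≤ 2 * Y → x ∉ E →
          c * Y ^ θ ≤ ({k : ℕ | (k : ℝ) ≤ Y ^ θ ∧ Regular δ K lam (k * x) ∧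
            (1 - δ) * Real.log (k * x) ≤ primesIn (k * x) (Real.log (k * x) ^ 2) ∧
            (primesIn (k * x) (Real.log (k * x) ^ 2) : ℝ) ≤ lam * Real.log (k * x)}.ncard
              : ℝ) := by
  classical
  intro δ hδ0 hδ1
  obtain ⟨K, lam, c₀, hK, hlam, hc₀, hev⟩ := integers δ hδ0 hδ1
  refine ⟨K, 4 * lam, by linarith, by positivity, fun θ hθ0 hθ1 => ?_⟩
  set S : Set ℕ := {m | 3 ≤ m ∧ FS δ K lam m} with hS
  have hS1 : ∀ᶠ N : ℕ in atTop, (c₀ / 2) * N ≤
      (((Finset.range N).filter (fun m => m ∈ S)).card : ℝ) := by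
    have hlarge : ∀ᶠ N : ℕ in atTop, 6 / c₀ ≤ (N : ℝ) :=
      tendsto_natCast_atTop_atTop.eventually_ge_atTop _
    filter_upwards [hev, hlarge] with N h1 h2
    have hsub : (Finset.range N).filter (fun n : ℕ => FS δ K lam n) ⊆
        (Finset.range N).filter (fun m => m ∈ S) ∪ Finset.range 3 := by
      intro n hn
      rw [Finset.mem_filter] at hn
      rw [Finset.mem_union, Finset.mem_filter, Finset.mem_range, Finset.mem_range]
      rcases Nat.lt_or_ge n 3 with h | h
      · exact Or.inr h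
      · exact Or.inl ⟨Finset.mem_range.1 hn.1, h, hn.2⟩
    have h3 := (Finset.card_le_card hsub).trans (Finset.card_union_le _ _)
    rw [Finset.card_range] at h3
    have h4 : (((Finset.range N).filter (fun n : ℕ => FS δ K lam n)).card : ℝ) ≤
        (((Finset.range N).filter (fun m => m ∈ S)).card : ℝ) + 3 := by exact_mod_cast h3
    rw [div_le_iff₀ hc₀] at h2
    linarith
  obtain ⟨c, κ, hc, hκ, Y₁, hY₁⟩ := Pool.Agent.H622R3.SP.mult S (c₀ / 2) (by positivity)
    (by convert hS1) θ hθ0 hθ1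
  -- large real numbers
  have ev1 : ∀ᶠ z : ℝ in atTop, K ≤ Real.log z := Real.tendsto_log_atTop.eventually_ge_atTop _
  have ev2 : ∀ᶠ z : ℝ in atTop, Real.log z ^ 2 ≤ z / 2 := by
    have h := (Real.isLittleO_pow_log_id_atTop (n := 2)).def (show (0 : ℝ) < 1 / 2 by norm_num)
    filter_upwards [h, eventually_ge_atTop (0 : ℝ)] with z h1 h2
    rw [Real.norm_of_nonneg (by positivity), id, Real.norm_of_nonneg h2] at h1
    linarith
  obtain ⟨Y₂, hY₂⟩ := (ev1.and ev2).exists_forall_of_atTop
  refine ⟨c, κ, hc, hκ, max Y₁ (max Y₂ 1), fun Y hY => ?_⟩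
  have hYY1 : Y₁ ≤ Y := (le_max_left _ _).trans hY
  have hYY2 : Y₂ ≤ Y := ((le_max_left _ _).trans (le_max_right _ _)).trans hY
  have hY1 : 1 ≤ Y := ((le_max_right _ _).trans (le_max_right _ _)).trans hY
  obtain ⟨E, hE, hvol, hx⟩ := hY₁ Y hYY1
  refine ⟨E, hE, hvol, fun x hx1 hx2 hxE => (hx x hx1 hx2 hxE).trans ?_⟩
  refine Nat.cast_le.2 (Set.ncard_le_ncard ?_ ?_)
  · rintro k ⟨hk, m, ⟨hm3, hm⟩, h1, h2⟩
    have hk0 : 1 ≤ k := by
      rcases Nat.eq_zero_or_pos k with h | h
      · exfalso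
        rw [h] at h1
        have : (0 : ℝ) ≤ m := Nat.cast_nonneg m
        simp at h1
        linarith
      · exact h
    have hk1 : (1 : ℝ) ≤ k := by exact_mod_cast hk0
    have hz : Y₂ ≤ k * x := by nlinarith
    obtain ⟨g1, g2⟩ := hY₂ (k * x) hz
    have hreg := regular_of hδ1 hK hlam hm3 hm h1 h2
    have hl0 : 0 < Real.log (k * x) := by linarith
    have h3 := hreg (Real.log (k * x) ^ 2) (by nlinarith) g2
    have e1 : (1 - δ) * Real.log (k * x) ^ 2 / Real.log (k * x) = (1 - δ) * Real.log (k * x) := by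
      field_simp
    have e2 : 4 * lam * Real.log (k * x) ^ 2 / Real.log (k * x) =
        4 * lam * Real.log (k * x) := by
      field_simp
    rw [e1, e2] at h3
    exact ⟨hk, hreg, h3⟩
  · refine (Set.finite_Iic ⌊Y ^ θ⌋₊).subset fun k hk => ?_
    exact Nat.le_floor hk.1

end Pool.Agent.Results.MP_45ff98_nt.MultiplesAllScales
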