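import Pool.Agent.N837.LP.GenQ

set_option autoImplicit false

/-!
# Prime-free intervals at prescribed distances, of total length `A log X`

For every `A ≥ 1`, `0 < η ≤ 1` and `E ≥ 1`, for every large `X` and EVERY finite system of intervals
`(h, h + l]` of total length at most `A log X` with `|h| + l ≤ X ^ E`, for a positive proportion of the
`n ≡ r (mod Q)` in `(X, X + X ^ η]` all the intervals `(n + h, n + h + l]` are free of primes.
-/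

namespace Pool.Agent.Results.MP_45ff98_nt.PrescribedDistances

theorem result (δ : ℝ) (hδ : 0 < δ) : ∃ C : ℝ, 0 < C ∧ ∀ A η E κ : ℝ, 1 ≤ A → 0 < η → η ≤ 1 →
    1 ≤ E → 1 ≤ κ → ∃ X₀ : ℝ, ∀ X : ℝ, X₀ ≤ X → ∀ Q : ℕ, 0 < Q → (Q : ℝ) ≤ X ^ (η / 2) →
    (Q : ℝ) ≤ κ * Q.totient → ∀ S : Finset (ℤ × ℕ), ∑ s ∈ S, (s.2 : ℝ) ≤ A * Real.log X →
    (∀ s ∈ S, |(s.1 : ℝ)| + s.2 ≤ X ^ E) → ∀ r : ℤ,
    X ^ η / Q * Real.exp (-Real.exp (C * A * κ / η)) ≤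
      (({n : ℕ | X < n ∧ (n : ℝ) ≤ X + X ^ η ∧ (Q : ℤ) ∣ n - r ∧
        ∀ s ∈ S, ∀ m : ℤ, (n : ℤ) + s.1 < m → m ≤ (n : ℤ) + s.1 + s.2 →
          ∃ q : ℕ, q.Prime ∧ (q : ℝ) ≤ X ^ (η * δ) ∧ (q : ℤ) ∣ m ∧ (q : ℤ) < |m|}).ncard : ℝ) := by
  classical
  obtain ⟨C, hC, h⟩ := Pool.Agent.N837.LP.genQ δ hδ
  refine ⟨C, hC, fun A η E κ hA hη hη1 hE hκ => ?_⟩
  obtain ⟨X₀, hX₀⟩ := h A η E κ hA hη hη1 hE hκ
  refine ⟨X₀, fun X hX Q hQ hQX hQφ S hS hSX r => ?_⟩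
  have h1 := hX₀ X hX Q hQ hQX hQφ
    (S.biUnion (fun s => (Finset.Icc 1 s.2).image (fun i : ℕ => -(s.1 + (i : ℤ)))))
    (by
      refine le_trans ?_ hS
      have e1 : (S.biUnion (fun s => (Finset.Icc 1 s.2).image
          (fun i : ℕ => -(s.1 + (i : ℤ))))).card ≤ ∑ s ∈ S, s.2 := by
        refine Finset.card_biUnion_le.trans (Finset.sum_le_sum fun s _ => ?_)
        refine Finset.card_image_le.trans ?_
        rw [Nat.card_Icc]
        omega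
      exact_mod_cast e1)
    (by
      intro b hb
      rw [Finset.mem_biUnion] at hb
      obtain ⟨s, hs, hb⟩ := hb
      rw [Finset.mem_image] at hb
      obtain ⟨i, hi, rfl⟩ := hb
      rw [Finset.mem_Icc] at hi
      push_cast
      rw [abs_neg]
      refine (abs_add_le _ _).trans ?_
      rw [abs_of_nonneg (show (0:ℝ) ≤ (i:ℝ) from Nat.cast_nonneg _)]
      have : (i : ℝ) ≤ s.2 := by exact_mod_cast hi.2
      have := hSX s hs
      linarith) r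
  refine h1.trans (Nat.cast_le.2 (Set.ncard_le_ncard ?_ ?_))
  · intro n hn
    obtain ⟨q1, q2, q3, q4⟩ := hn
    refine ⟨q1, q2, q3, fun s hs m hm1 hm2 => ?_⟩
    obtain ⟨i, hi⟩ : ∃ i : ℕ, (i : ℤ) = m - (n + s.1) :=
      ⟨(m - (n + s.1)).toNat, Int.toNat_of_nonneg (by linarith)⟩
    have hb : -(s.1 + (i : ℤ)) ∈
        (S.biUnion (fun s => (Finset.Icc 1 s.2).image (fun i : ℕ => -(s.1 + (i : ℤ))))) := by
      rw [Finset.mem_biUnion]
      refine ⟨s, hs, ?_⟩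
      rw [Finset.mem_image]
      refine ⟨i, ?_, rfl⟩
      rw [Finset.mem_Icc]
      constructor <;> omega
    obtain ⟨q, p1, p2, p3, p4⟩ := q4 _ hb
    have e1 : (n : ℤ) - -(s.1 + (i : ℤ)) = m := by
      rw [hi]
      ring
    rw [e1] at p3 p4
    exact ⟨q, p1, p2, p3, p4⟩
  · apply (Set.finite_Iic ⌊X + X ^ η⌋₊).subset
    intro a ha
    obtain ⟨_, h2, _⟩ := ha
    rw [Set.mem_Iic]
    exact Nat.le_floor h2

end Pool.Agent.Results.MP_45ff98_nt.PrescribedDistances
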