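import Mathlib
import Pool.Agent.N740.HK.Sch

/-!
# The statement of Schinzel fails in the random models of the primes

The integers are decided one after the other and the conditional probability of choosing `n + 1`,
given the decisions up to `n`, is `1 / (log n + o(log log log n))`, almost surely.  No independence is
assumed.  The independent model of Cramér and the random sieve of Hawkins are examples.
-/

set_option autoImplicit false

open MeasureTheory Filter Set ProbabilityTheory
open scoped Topology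

namespace Pool.Agent.Results.MP_45ff98_nt.SequentialModels

variable {Ω : Type}

/-- `A n` is the event that `n` is chosen.  The events are adapted to the filtration `ℱ` and the
conditional probability of `A (n + 1)` given `ℱ n` is `1 / (log n + o(log log log n))` almost surely. -/
def SequentialModel [m : MeasurableSpace Ω] (μ : Measure Ω) (ℱ : Filtration ℕ m) (A : ℕ → Set Ω) : Prop :=
  (∀ n, MeasurableSet[ℱ n] (A n)) ∧
  ∀ᵐ ω ∂μ, Tendsto (fun n : ℕ => (((μ[(A (n + 1)).indicator (fun _ => (1 : ℝ)) | ℱ n]) ω)⁻¹ - Real.log n) /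
    Real.log (Real.log (Real.log n))) atTop (𝓝 0)

/-- The model of Cramér: independent events, `n` is chosen with probability `1 / log n` for `n ≥ 3`. -/
def CramerModel [MeasurableSpace Ω] (μ : Measure Ω) (A : ℕ → Set Ω) : Prop :=
  (∀ n, MeasurableSet (A n)) ∧ iIndepSet A μ ∧ ∀ n : ℕ, 3 ≤ n → μ (A n) = ENNReal.ofReal (1 / Real.log n)

open Classical in
/-- The random sieve of Hawkins: `2` is chosen, and given the decisions up to `n ≥ 2` the number
`n + 1` is chosen with probability `∏ (1 - 1 / h)`, the product over the chosen `2 ≤ h ≤ n`. -/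
def HawkinsSieve [m : MeasurableSpace Ω] (μ : Measure Ω) (ℱ : Filtration ℕ m) (A : ℕ → Set Ω) : Prop :=
  (∀ n, MeasurableSet[ℱ n] (A n)) ∧ A 2 = univ ∧
  ∀ n, 2 ≤ n → μ[(A (n + 1)).indicator (fun _ => (1 : ℝ)) | ℱ n] =ᵐ[μ]
    fun ω => ∏ h ∈ Finset.Icc 2 n, if ω ∈ A h then 1 - 1 / (h : ℝ) else 1

open Pool.Agent.N740.HK Pool.Agent.R528.RM

lemma prod_inv (A : ℕ → Set Ω) (n : ℕ) (ω : Ω) [DecidablePred fun h => ω ∈ A h] :
    (∏ h ∈ Finset.Icc 2 n, if ω ∈ A h then 1 - 1 / (h : ℝ) else 1) = (Y A n ω)⁻¹ := by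
  unfold Y
  rw [← Finset.prod_inv_distrib]
  refine Finset.prod_congr rfl fun h hh => ?_
  have h2 : (2 : ℝ) ≤ h := by exact_mod_cast (Finset.mem_Icc.1 hh).1
  by_cases hA : ω ∈ A h
  · rw [if_pos hA, if_pos hA, inv_div]
    field_simp
  · rw [if_neg hA, if_neg hA, inv_one]

lemma log_succ_sub : Tendsto (fun n : ℕ => Real.log ((n : ℝ) + 1) - Real.log n) atTop (𝓝 0) := by
  have h1 : Tendsto (fun n : ℕ => 1 + (1 : ℝ) / n) atTop (𝓝 (1 + 0)) :=
    tendsto_const_nhds.add tendsto_one_div_atTop_nhds_zero_nat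
  rw [add_zero] at h1
  have h2 := (Real.continuousAt_log (one_ne_zero)).tendsto.comp h1
  rw [Real.log_one] at h2
  refine h2.congr' ?_
  filter_upwards [eventually_gt_atTop 0] with n hn
  have hn' : (0 : ℝ) < n := by exact_mod_cast hn
  show Real.log (1 + 1 / (n : ℝ)) = _
  rw [← Real.log_div (by positivity) hn'.ne']
  congr 1
  field_simp

end Pool.Agent.Results.MP_45ff98_nt.SequentialModels

open Pool.Agent.Results.MP_45ff98_nt.SequentialModels Pool.Agent.N740.HK Pool.Agent.R528.RM

/-- The random sieve of Hawkins is a sequential model, the model of Cramér is one for some filtration;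
and in every sequential model, almost surely:
(1) the statement of Schinzel fails for arbitrarily large `x`: the open interval
`(x, x + (log x) ^ 2)` contains no chosen integer;
(2) it fails for arbitrarily large `x` even for the longer intervals
`(x, x + (log x) ^ 2 + (1 - ε) log x log log log x)`, for every `ε > 0`;
(3) for every `ε > 0` and all large real `x` there is a chosen integer in
`(x, x + (log x) ^ 2 + (1 + ε) log x log log log x)`. -/
theorem Pool.Agent.Results.MP_45ff98_nt.SequentialModels.result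
    {Ω : Type} [m : MeasurableSpace Ω] (μ : Measure Ω) [IsProbabilityMeasure μ] (A : ℕ → Set Ω) :
    (CramerModel μ A → ∃ ℱ : Filtration ℕ m, SequentialModel μ ℱ A) ∧
    ∀ ℱ : Filtration ℕ m,
    (HawkinsSieve μ ℱ A → SequentialModel μ ℱ A) ∧
    (SequentialModel μ ℱ A →
      ∀ᵐ ω ∂μ,
        (∃ᶠ x : ℝ in atTop, ¬ ∃ p : ℕ, ω ∈ A p ∧ x < p ∧ p < x + Real.log x ^ 2) ∧
        ∀ ε : ℝ, 0 < ε →
          (∃ᶠ x : ℝ in atTop, ¬ ∃ p : ℕ, ω ∈ A p ∧ x < p ∧
            p < x + (Real.log x ^ 2 + (1 - ε) * Real.log x * Real.log (Real.log (Real.log x)))) ∧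
          (∀ᶠ x : ℝ in atTop, ∃ p : ℕ, ω ∈ A p ∧ x < p ∧
            p < x + (Real.log x ^ 2 + (1 + ε) * Real.log x * Real.log (Real.log (Real.log x))))) := by
  classical
  refine ⟨?_, fun ℱ => ⟨?_, ?_⟩⟩
  · rintro ⟨hA, hi, hp⟩
    refine ⟨gen hA, gen_meas hA, ?_⟩
    have h1 : ∀ᵐ ω ∂μ, ∀ n, (μ[(A (n + 1)).indicator (fun _ => (1 : ℝ)) | gen hA n]) ω =
        (μ (A (n + 1))).toReal := ae_all_iff.2 fun n => dens_gen hA hi n
    filter_upwards [h1] with ω hω
    have h2 : Tendsto (fun n : ℕ => (Real.log ((n : ℝ) + 1) - Real.log n) /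
        Real.log (Real.log (Real.log n))) atTop (𝓝 0) := log_succ_sub.div_atTop tendsto_lll
    refine h2.congr' ?_
    filter_upwards [eventually_ge_atTop 2] with n hn
    rw [hω, hp (n + 1) (by omega), ENNReal.toReal_ofReal, one_div, inv_inv]
    · push_cast
      rfl
    · have : 0 ≤ Real.log ((n + 1 : ℕ) : ℝ) := Real.log_natCast_nonneg _
      positivity
  · rintro ⟨h1, h2, h3⟩
    have hs : Pool.Agent.N740.HK.HS μ ℱ A := ⟨h1, h2, fun n hn => by
      filter_upwards [h3 n hn] with ω hω
      rw [← prod_inv]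
      exact hω⟩
    exact ⟨h1, Pool.Agent.N740.HK.hyp hs⟩
  · rintro ⟨hA, hd⟩
    filter_upwards [second_order hA hd] with ω hω
    obtain ⟨hinf, hω⟩ := hω
    have hlow : ∀ ε : ℝ, 0 < ε → ∃ᶠ x : ℝ in atTop, ¬ ∃ p : ℕ, ω ∈ A p ∧ x < p ∧
            p < x + (Real.log x ^ 2 + (1 - ε) * Real.log x * Real.log (Real.log (Real.log x))) := by
      intro ε hε
      refine (lower hinf (c := 1 - ε) (hω ε hε).2).mono fun x hx => ?_
      rintro ⟨p, hp1, hp2, hp3⟩
      have h4 := hx p hp1 hp2
      unfold Pool.Agent.N740.HK.FF at h4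
      linarith
    refine ⟨?_, fun ε hε => ⟨hlow ε hε, ?_⟩⟩
    · refine (hlow 1 one_pos).mono fun x hx => ?_
      rintro ⟨p, hp1, hp2, hp3⟩
      refine hx ⟨p, hp1, hp2, ?_⟩
      rw [sub_self, zero_mul, zero_mul, add_zero]
      exact hp3
    · have h5 := (hω (ε / 2) (by linarith)).1
      filter_upwards [upper hinf (c := 1 + ε / 2) (c' := 1 + ε) (by linarith) (by linarith) h5] with x hx
      obtain ⟨p, hp, h6, h7⟩ := hx
      exact ⟨p, hp, h6, h7⟩
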